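import Pool.Agent.N728.QU.Def
import Pool.Agent.N568.QH.H4P

set_option autoImplicit false

/-! QU/H4P: slowly varying weights for `T ≤ K3 B`, primes, uniformly in the constant term: the shift and B4Pu
(after `Pool.Agent.N568.QH.H4P` of helper568). -/

namespace Pool.Agent.N650.QU

open Finset Pool.Agent.N728.QL Pool.Agent.N728.QG Pool.Agent.N728.QU Pool.Agent.N568.QH

noncomputable section

/-! ### the comparison of `EPu` at `B` and at `B'` -/

lemma EPu_bd {c σ : ℤ} {z B : ℕ} (hσ : σ = 1 ∨ σ = -1) (hB2 : 2 ≤ B) (hc : c.natAbs ≤ B ^ 3) (n : ℕ) :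
    |EPu σ c z B n| ≤ 4 * Real.log B + (VW 0 z)⁻¹ := by
  have hBr : (2 : ℝ) ≤ B := by exact_mod_cast hB2
  have hL : 0 ≤ Real.log (B : ℝ) := Real.log_nonneg (by linarith)
  have hV : 0 ≤ (VW 0 z)⁻¹ := inv_nonneg.2 (VW_pos 0 z).le
  unfold EPu
  split_ifs with h
  · unfold EE
    refine (abs_sub _ _).trans ?_
    apply add_le_add
    · unfold Pool.Agent.N728.QL.lp
      split_ifs with hp
      · have hm0 : 0 < σ * (n : ℤ) + c := by
          have : (2 : ℤ) ≤ B := by exact_mod_cast hB2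
          omega
        have h1 : σ * (n : ℤ) + c ≤ (B : ℤ) ^ 4 := by
          have h2 : (n : ℤ) ≤ (B : ℤ) ^ 3 := by exact_mod_cast h.2
          have h3 : c ≤ (B : ℤ) ^ 3 := by
            have h4 : (c.natAbs : ℤ) ≤ (B : ℤ) ^ 3 := by exact_mod_cast hc
            omega
          have h5 : (B : ℤ) ^ 3 * 2 ≤ (B : ℤ) ^ 3 * B :=
            mul_le_mul_of_nonneg_left (by exact_mod_cast hB2) (by positivity)
          have h6 : (B : ℤ) ^ 4 = (B : ℤ) ^ 3 * B := by ring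
          have h7 : σ * (n : ℤ) ≤ n := by
            rcases hσ with rfl | rfl <;> omega
          omega
        have h1r : ((σ * (n : ℤ) + c : ℤ) : ℝ) ≤ (B : ℝ) ^ 4 := by exact_mod_cast h1
        have hm1 : (1 : ℝ) ≤ ((σ * (n : ℤ) + c : ℤ) : ℝ) := by exact_mod_cast hm0
        rw [abs_of_nonneg (Real.log_nonneg hm1)]
        have := Real.log_le_log (by linarith) h1r
        rw [Real.log_pow] at this
        exact_mod_cast this
      · rw [abs_zero]
        linarith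
    · rw [abs_of_nonneg (lz_nonneg _ _)]
      exact lz_le _ _
  · rw [abs_zero]
    linarith

/-- a set of integers whose differences are at most `M / u` -/
lemma card_short (S : Finset ℕ) (u M : ℕ) (hu : 1 ≤ u) (h : ∀ v ∈ S, ∀ w ∈ S, v ≤ w → u * (w - v) ≤ M) :
    (S.card : ℝ) ≤ (M : ℝ) / u + 1 := by
  rcases S.eq_empty_or_nonempty with hS | hS
  · rw [hS, card_empty]
    push_cast
    positivity
  · have h1 : S ⊆ Icc (S.min' hS) (S.min' hS + M / u) := by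
      intro w hw
      rw [mem_Icc]
      have h2 := S.min'_le w hw
      refine ⟨h2, ?_⟩
      have h3 := h _ (S.min'_mem hS) w hw h2
      have h4 : w - S.min' hS ≤ M / u := by
        rw [Nat.le_div_iff_mul_le (show 0 < u by omega), mul_comm]
        exact h3
      omega
    have h2 := card_le_card h1
    rw [Nat.card_Icc] at h2
    have h3 : S.card ≤ M / u + 1 := by
      generalize S.min' hS = a at h2
      generalize M / u = b at h2 ⊢
      omega
    have h4 : ((M / u : ℕ) : ℝ) ≤ (M : ℝ) / u := Nat.cast_div_le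
    have h5 : (S.card : ℝ) ≤ ((M / u : ℕ) : ℝ) + 1 := by exact_mod_cast h3
    linarith

lemma harm (N : ℕ) : ∑ u ∈ Icc 1 N, (1 : ℝ) / u ≤ 1 + Real.log N := by
  have h := harmonic_le_one_add_log N
  rw [harmonic_eq_sum_Icc] at h
  push_cast at h
  simpa using h

/-- the total difference -/
lemma EPu_diff {c σ : ℤ} {z B B' U1 U2 N u0 v0 q : ℕ} {P KB : ℝ} {h : ℝ → ℝ} (hσ : σ = 1 ∨ σ = -1)
    (hB2 : 2 ≤ B) (hc : c.natAbs ≤ B ^ 3) (hBB : B ≤ B') (hP : 0 < P) (h1 : ∀ x, |h x| ≤ 1)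
    (h3 : ∀ x, KB ≤ x → h x = 0) (h4 : (U2 : ℝ) * (KB * P) ≤ (B : ℝ) ^ 3) :
    |∑ u ∈ (Ioc U1 U2).filter (fun u => u ≡ u0 [MOD q]), ∑ v ∈ (Icc 1 N).filter (fun v => v ≡ v0 [MOD q]),
        h (v / P) * EPu σ c z B (u * v) -
      ∑ u ∈ (Ioc U1 U2).filter (fun u => u ≡ u0 [MOD q]), ∑ v ∈ (Icc 1 N).filter (fun v => v ≡ v0 [MOD q]),
        h (v / P) * EPu σ c z B' (u * v)| ≤
      (B' * (1 + Real.log U2) + U2) * (4 * Real.log B + (VW 0 z)⁻¹) := by
  classical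
  have hBr : (2 : ℝ) ≤ B := by exact_mod_cast hB2
  have hV0 : 0 ≤ 4 * Real.log B + (VW 0 z)⁻¹ := (abs_nonneg _).trans (EPu_bd hσ hB2 hc 0)
  obtain ⟨V, hV⟩ : ∃ V, V = 4 * Real.log B + (VW 0 z)⁻¹ := ⟨_, rfl⟩
  rw [← hV] at hV0 ⊢
  set S1 := (Ioc U1 U2).filter (fun u => u ≡ u0 [MOD q]) with hS1
  set S2 := (Icc 1 N).filter (fun v => v ≡ v0 [MOD q]) with hS2
  obtain ⟨Q, hQ⟩ : ∃ Q : ℕ → Finset ℕ, Q = fun u => (Icc 1 N).filter
      (fun v : ℕ => (B : ℤ) ≤ σ * ((u * v : ℕ) : ℤ) + c ∧ σ * ((u * v : ℕ) : ℤ) + c < B') := ⟨_, rfl⟩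
  have key : ∀ u ∈ S1, ∀ v ∈ S2, |h (v / P) * EPu σ c z B (u * v) - h (v / P) * EPu σ c z B' (u * v)| ≤
      if v ∈ Q u then V else 0 := by
    intro u hu v hv
    rw [hS1, mem_filter, mem_Ioc] at hu
    rw [hS2, mem_filter, mem_Icc] at hv
    obtain ⟨⟨hu1, hu2⟩, -⟩ := hu
    obtain ⟨⟨hv1, hvN⟩, -⟩ := hv
    rw [← mul_sub, abs_mul]
    by_cases hz : h (v / P) = 0
    · rw [hz, abs_zero, zero_mul]
      split_ifs
      · exact hV0
      · exact le_rfl
    · have hvb : (v : ℝ) / P < KB := by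
        by_contra hcon
        exact hz (h3 _ (not_lt.1 hcon))
      rw [div_lt_iff₀ hP] at hvb
      have hn : u * v ≤ B ^ 3 := by
        have h5 : ((u : ℝ) * v) ≤ (B : ℝ) ^ 3 := by
          refine le_trans ?_ h4
          apply mul_le_mul (by exact_mod_cast hu2) hvb.le (by positivity) (by positivity)
        exact_mod_cast h5
      have hn' : u * v ≤ B' ^ 3 := hn.trans (Nat.pow_le_pow_left hBB 3)
      by_cases hq : v ∈ Q u
      · rw [if_pos hq]
        rw [hQ] at hq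
        simp only [mem_filter] at hq
        have hz' : EPu σ c z B' (u * v) = 0 := by
          unfold EPu
          rw [if_neg]
          intro h6
          have := hq.2.2
          omega
        rw [hz', sub_zero]
        calc |h (v / P)| * |EPu σ c z B (u * v)| ≤ 1 * |EPu σ c z B (u * v)| :=
              mul_le_mul_of_nonneg_right (h1 _) (abs_nonneg _)
          _ ≤ V := by rw [one_mul, hV]; exact EPu_bd hσ hB2 hc _
      · rw [if_neg hq]
        have hq' : ¬ ((B : ℤ) ≤ σ * ((u * v : ℕ) : ℤ) + c ∧ σ * ((u * v : ℕ) : ℤ) + c < B') := by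
          intro h6
          apply hq
          rw [hQ]
          simp only [mem_filter, mem_Icc]
          exact ⟨⟨hv1, hvN⟩, h6⟩
        have hBBz : (B : ℤ) ≤ B' := by exact_mod_cast hBB
        have he : EPu σ c z B (u * v) = EPu σ c z B' (u * v) := by
          unfold EPu
          by_cases h6 : (B : ℤ) ≤ σ * ((u * v : ℕ) : ℤ) + c
          · have h7 : (B' : ℤ) ≤ σ * ((u * v : ℕ) : ℤ) + c := by
              by_contra h8
              exact hq' ⟨h6, not_le.1 h8⟩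
            rw [if_pos ⟨h6, hn⟩, if_pos ⟨h7, hn'⟩]
          · rw [if_neg (fun h7 => h6 h7.1), if_neg (fun h7 => h6 (hBBz.trans h7.1))]
        rw [he, sub_self, abs_zero, mul_zero]
  have hcard : ∀ u, 1 ≤ u → ((Q u).card : ℝ) ≤ (B' : ℝ) / u + 1 := by
    intro u hu
    apply card_short _ _ _ hu
    intro v hv w hw hvw
    rw [hQ] at hv hw
    simp only [mem_filter] at hv hw
    have e1 : ((u * v : ℕ) : ℤ) ≤ ((u * w : ℕ) : ℤ) := by exact_mod_cast Nat.mul_le_mul_left u hvw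
    have e2 : ((u * (w - v) : ℕ) : ℤ) = ((u * w : ℕ) : ℤ) - ((u * v : ℕ) : ℤ) := by
      rw [Nat.mul_sub, Nat.cast_sub (Nat.mul_le_mul_left u hvw)]
    have e3 : ((u * (w - v) : ℕ) : ℤ) ≤ B' := by
      rw [e2]
      rcases hσ with rfl | rfl
      · have := hw.2.2
        have := hv.2.1
        omega
      · have := hv.2.2
        have := hw.2.1
        omega
    exact_mod_cast e3
  rw [← sum_sub_distrib]
  refine (abs_sum_le_sum_abs _ _).trans ?_
  have hinner : ∀ u ∈ S1, |∑ v ∈ S2, h (v / P) * EPu σ c z B (u * v) -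
      ∑ v ∈ S2, h (v / P) * EPu σ c z B' (u * v)| ≤ ((B' : ℝ) * (1 / u) + 1) * V := by
    intro u hu
    have hu1 : 1 ≤ u := by
      rw [hS1, mem_filter, mem_Ioc] at hu
      omega
    rw [← sum_sub_distrib]
    refine (abs_sum_le_sum_abs _ _).trans ((sum_le_sum (key u hu)).trans ?_)
    rw [sum_ite_mem, sum_const, nsmul_eq_mul]
    apply mul_le_mul_of_nonneg_right _ hV0
    have h5 : ((S2 ∩ Q u).card : ℝ) ≤ ((Q u).card : ℝ) := by
      exact_mod_cast card_le_card inter_subset_right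
    refine h5.trans ((hcard u hu1).trans (le_of_eq ?_))
    ring
  refine (sum_le_sum hinner).trans ?_
  rw [← sum_mul]
  apply mul_le_mul_of_nonneg_right _ hV0
  have h5 : ∑ u ∈ S1, ((B' : ℝ) * (1 / u) + 1) ≤ ∑ u ∈ Icc 1 U2, ((B' : ℝ) * (1 / u) + 1) := by
    apply sum_le_sum_of_subset_of_nonneg
    · intro u hu
      rw [hS1, mem_filter, mem_Ioc] at hu
      rw [mem_Icc]
      omega
    · intro u _ _
      positivity
  refine h5.trans ?_
  rw [sum_add_distrib, ← mul_sum, sum_const, nsmul_eq_mul, mul_one, Nat.card_Icc, Nat.add_sub_cancel]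
  have h6 := mul_le_mul_of_nonneg_left (harm U2) (Nat.cast_nonneg B' : (0 : ℝ) ≤ B')
  linarith

lemma tame_mul {s0 : ℕ} {c σ : ℤ} (hσ : σ = 1 ∨ σ = -1) (h : Tame s0 c) : Tame s0 (σ * c) := by
  rcases hσ with rfl | rfl
  · rw [one_mul]; exact h
  · refine ⟨by rw [neg_one_mul]; exact neg_ne_zero.2 h.1, ?_⟩
    rw [neg_one_mul, Int.natAbs_neg]
    exact h.2

/-! ### the theorem -/

/-- **H4Pu.** Slowly varying weights, primes, `T ≤ K3 B`. -/
theorem t_H4Pu (hSH : S_SH) (hB4 : ∀ s0, S_B4Pu s0) (hEEB : S_EEBu) (hU0 : S_U0u) (hU1 : ∀ s0, S_U1u s0)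
    (hMER : S_MER) (s0 : ℕ) : S_H4Pu s0 := by
  classical
  have _hMER := hMER
  obtain ⟨C1, Kb, hKb, hb4⟩ := hB4 s0
  obtain ⟨κ', hκ', heeb⟩ := hEEB
  refine ⟨2 * Kb, by positivity, ?_⟩
  intro K K3 D q z ε hK hD hq hz2 hcz hε hPq hqz
  -- constants
  obtain ⟨CU0, hCU0, k0, BU0, hu0⟩ := hU0 (8 * (D + 1)) (by omega)
  obtain ⟨CU1, hCU1, k1, BU1, hu1⟩ := hU1 s0 (8 * (D + 1)) (by omega)
  obtain ⟨k, hk⟩ : ∃ k, k = max 2 (max k0 k1) := ⟨_, rfl⟩
  have hk2 : 2 ≤ k := by rw [hk]; exact le_max_left _ _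
  have hkk0 : k0 ≤ k := by rw [hk]; exact (le_max_left _ _).trans (le_max_right _ _)
  have hkk1 : k1 ≤ k := by rw [hk]; exact (le_max_right _ _).trans (le_max_right _ _)
  have hkr : (2 : ℝ) ≤ k := by exact_mod_cast hk2
  have hκk : 0 < κ' * (k : ℝ) := by positivity
  have hmaxpos : 0 < max CU0 CU1 := lt_max_of_lt_left hCU0
  obtain ⟨C0, hC0⟩ : ∃ C0, C0 = (κ' * (k : ℝ)) * (2 * max CU0 CU1) := ⟨_, rfl⟩
  have hC0pos : 0 < C0 := by rw [hC0]; positivity
  have hKr : (1 : ℝ) ≤ K := by exact_mod_cast hK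
  have hqr : (1 : ℝ) ≤ q := by exact_mod_cast hq
  have hzr : (2 : ℝ) ≤ z := by exact_mod_cast hz2
  obtain ⟨δ, hδ⟩ : ∃ δ, δ = min (1 / 4) (ε / (40 * C0 * K)) := ⟨_, rfl⟩
  have hδ0 : 0 < δ := by rw [hδ]; exact lt_min (by norm_num) (by positivity)
  have hδ4 : δ ≤ 1 / 4 := by rw [hδ]; exact min_le_left _ _
  have hδε : C0 * K * δ * 40 ≤ ε := by
    have h1 : δ ≤ ε / (40 * C0 * K) := by rw [hδ]; exact min_le_right _ _
    rw [le_div_iff₀ (by positivity)] at h1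
    linarith
  obtain ⟨A, hA⟩ : ∃ A, A = C1 + 2 := ⟨_, rfl⟩
  obtain ⟨S0, hS0⟩ : ∃ S0 : ℕ, S0 = ⌈-Real.log δ⌉₊ := ⟨_, rfl⟩
  have hS0' : -Real.log δ ≤ (S0 : ℝ) := by rw [hS0]; exact Nat.le_ceil _
  obtain ⟨ρ, hρ1, hρ2, BS, hS⟩ := hSH C0 (ε / 16) k (D + 1) K 2 q A S0 hC0pos (by positivity) (by omega) hK hq
  obtain ⟨B4, hB4'⟩ := hb4 (K + 1) (D + 1) q z (ε / 8) (by omega) (by omega) hq hz2 hcz (by positivity) hPq hqz
  obtain ⟨BE, hBE⟩ := heeb k z hk2
  obtain ⟨V, hV⟩ : ∃ V, V = (VW 0 z)⁻¹ := ⟨_, rfl⟩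
  have hV0 : 0 < V := by rw [hV]; exact inv_pos.2 (VW_pos 0 z)
  obtain ⟨κ4, hκ4⟩ : ∃ κ4, κ4 = Kb * ((K + 1 : ℕ) : ℝ) * (VW 0 z)⁻¹ / √(z : ℝ) := ⟨_, rfl⟩
  obtain ⟨κ, hκ⟩ : ∃ κ, κ = 2 * Kb * K * (VW 0 z)⁻¹ / √(z : ℝ) := ⟨_, rfl⟩
  have hκ40 : 0 ≤ κ4 := by rw [hκ4, ← hV]; positivity
  have hκ0 : 0 ≤ κ := by rw [hκ, ← hV]; positivity
  have hκκ : κ4 ≤ κ := by
    rw [hκ4, hκ, ← hV]
    apply div_le_div_of_nonneg_right _ (by positivity)
    apply mul_le_mul_of_nonneg_right _ hV0.le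
    push_cast
    nlinarith
  refine Filter.eventually_atTop.1 ?_
  filter_upwards [Filter.eventually_ge_atTop BS, Filter.eventually_ge_atTop B4, Filter.eventually_ge_atTop BE,
    Filter.eventually_ge_atTop BU0, Filter.eventually_ge_atTop BU1, Filter.eventually_ge_atTop (z ^ k),
    Filter.eventually_ge_atTop 2, Filter.eventually_ge_atTop (K + 1), Filter.eventually_ge_atTop (K * K3),
    ev_log 4, ev_log (K + K / δ), ev_log (4 * Real.exp (1 / δ)), ev_log (8 * K3 * ((A : ℝ) + 1) ^ C1),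
    ev_log (1 / δ ^ 2), ev_T (2 ^ (D + 1)) (A * (D + 2)) D (by positivity) hD,
    ev_T ((1 / δ) ^ (D + 1)) 0 D (by positivity) hD, ev_T (8 * κ4 / ε) A D (by positivity) hD,
    ev_T (48 * (4 + V) / ε) (A + 2) D (by positivity) hD, ev_T (16 * (4 + V) / ε) 1 1 (by positivity) le_rfl,
    ev_T ((K3 : ℝ) ^ 2) 1 1 (by positivity) le_rfl, ev_log (4 * K3)]
    with B bS b4 bE bU0 bU1 bz b2 bK bKK l1 l2 l3 l4 l5 t1 t2 t3 t4 t5 t6 l6
  intro T c σ hct hσ hT hTK hcK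
  replace t5 := t5 B (by rw [pow_one])
  replace t6 := t6 B (by rw [pow_one])
  rw [pow_one] at t5 t6
  replace t1 := t1 T hT
  replace t2 := t2 T hT
  replace t3 := t3 T hT
  replace t4 := t4 T hT
  rw [← hκ]
  obtain ⟨L, hL⟩ : ∃ L, L = Real.log (B : ℝ) := ⟨_, rfl⟩
  rw [← hL] at l1 l2 l3 l4 l5 t1 t2 t3 t4 t5 t6 l6 hcK
  have hBr : (2 : ℝ) ≤ B := by exact_mod_cast b2
  have hB0 : (0 : ℝ) < B := by linarith
  have hL1 : 1 ≤ L := by linarith
  have hL0 : 0 < L := by linarith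
  have hLB : L ≤ B := by
    rw [hL]
    have := Real.log_le_sub_one_of_pos hB0
    linarith
  have hzB : z ≤ B := (Nat.le_self_pow (by omega) z).trans bz
  have hTKr0 : (T : ℝ) ≤ K3 * B := by exact_mod_cast hTK
  have hcB : c.natAbs ≤ B ^ 3 := by
    have h1 : (c.natAbs : ℝ) ≤ (B : ℝ) ^ 3 := by
      calc (c.natAbs : ℝ) ≤ K3 * ((B : ℝ) * T) * L := hcK
        _ ≤ K3 * ((B : ℝ) * (K3 * B)) * L := by
            apply mul_le_mul_of_nonneg_right _ hL0.le
            apply mul_le_mul_of_nonneg_left _ (Nat.cast_nonneg K3)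
            exact mul_le_mul_of_nonneg_left hTKr0 hB0.le
        _ = ((K3 : ℝ) ^ 2 * L) * (B : ℝ) ^ 2 := by ring
        _ ≤ B * (B : ℝ) ^ 2 := mul_le_mul_of_nonneg_right t6 (by positivity)
        _ = (B : ℝ) ^ 3 := by ring
    exact_mod_cast h1
  have hct' : Tame s0 (σ * c) := tame_mul hσ hct
  have hcB' : (σ * c).natAbs ≤ B ^ 3 := by
    rcases hσ with rfl | rfl
    · rw [one_mul]; exact hcB
    · rw [neg_one_mul, Int.natAbs_neg]; exact hcB
  -- the root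
  obtain ⟨z1, hz1a, hz1b⟩ := root_ex k B (by omega) (by omega)
  obtain ⟨hz12, hEW⟩ := hBE B bE c σ hσ hcB z1 hz1a hz1b
  obtain ⟨E, hE⟩ : ∃ E : ℕ → ℝ, E = EPu σ c z B := ⟨_, rfl⟩
  obtain ⟨W, hW⟩ : ∃ W : ℕ → ℝ, W = fun n : ℕ => (κ' * (k : ℝ)) * (lz z1 ((n : ℤ) + σ * c) + lz z ((n : ℤ) + σ * c)) :=
    ⟨_, rfl⟩
  have hEW' : ∀ n, |E n| ≤ W n := by
    intro n
    rw [hE, hW]
    exact hEW n
  have hW0 : U0b C0 k B (8 * (D + 1)) W := by
    have a1 := hu0 B bU0 (σ * c) hct'.1 hcB' z1 hz12 ((Nat.pow_le_pow_right (by omega) hkk0).trans hz1a)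
    have a2 := hu0 B bU0 (σ * c) hct'.1 hcB' z hz2 ((Nat.pow_le_pow_right (by omega) hkk0).trans bz)
    rw [hW, hC0]
    exact U0b_add hκk.le (U0b_mono (le_max_left _ _) hkk0 a1) (U0b_mono (le_max_left _ _) hkk0 a2)
  have hW1 : U1b C0 k B (8 * (D + 1)) W := by
    have a1 := hu1 B bU1 (σ * c) hct' hcB' z1 hz12 ((Nat.pow_le_pow_right (by omega) hkk1).trans hz1a)
    have a2 := hu1 B bU1 (σ * c) hct' hcB' z hz2 ((Nat.pow_le_pow_right (by omega) hkk1).trans bz)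
    rw [hW, hC0]
    exact U1b_add hκk.le (U1b_mono (le_max_right _ _) hkk1 a1) (U1b_mono (le_max_right _ _) hkk1 a2)
  -- the range of T
  have hTr : (B : ℝ) ≤ (T : ℝ) ^ D := by exact_mod_cast hT
  have hTKr : (T : ℝ) ≤ K3 * B := by exact_mod_cast hTK
  rw [pow_zero, mul_one] at t2
  have hδinv : 1 ≤ 1 / δ := by rw [le_div_iff₀ hδ0]; linarith
  have hT1 : 1 / δ ≤ T := le_trans (le_self_pow₀ hδinv (by omega)) t2
  have hT0 : (0 : ℝ) < T := by linarith
  have hTn : 1 ≤ T := by exact_mod_cast hT0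
  have hTB : T ≤ B ^ (D + 1) := by
    calc T ≤ K3 * B := hTK
      _ ≤ B * B := Nat.mul_le_mul_right B (by
          calc K3 ≤ K * K3 := Nat.le_mul_of_pos_left K3 (by omega)
            _ ≤ B := bKK)
      _ = B ^ 2 := by ring
      _ ≤ B ^ (D + 1) := Nat.pow_le_pow_right (by omega) (by omega)
  have hBD : ∀ x : ℕ, x ≤ B ^ (D + 1) → x ≤ B ^ (8 * (D + 1)) := fun x hx =>
    hx.trans (Nat.pow_le_pow_right (by omega) (by omega))
  have hDD : ∀ x : ℕ, B ≤ x ^ (D + 1) → B ≤ x ^ (8 * (D + 1)) := by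
    intro x hx
    have hx1 : 1 ≤ x := by
      by_contra hcon
      have : x = 0 := by omega
      rw [this, zero_pow (by omega)] at hx
      omega
    exact hx.trans (Nat.pow_le_pow_right hx1 (by omega))
  have hKBle : K * B ≤ B ^ (D + 1) := by
    calc K * B ≤ B * B := Nat.mul_le_mul_right B (by omega)
      _ = B ^ 2 := by ring
      _ ≤ B ^ (D + 1) := Nat.pow_le_pow_right (by omega) (by omega)
  have hTT : B ≤ T ^ (D + 1) := hT.trans (Nat.pow_le_pow_right hTn (by omega))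
  have hBB : B ≤ B ^ (D + 1) := Nat.le_self_pow (by omega) B
  -- U0
  obtain ⟨U0, hU0d⟩ : ∃ U0, U0 = ⌈δ * (T : ℝ)⌉₊ := ⟨_, rfl⟩
  have hU0a : δ * T ≤ U0 := by rw [hU0d]; exact Nat.le_ceil _
  have hδT : 1 ≤ δ * T := by
    rw [div_le_iff₀ hδ0] at hT1
    linarith
  have hU0b : (U0 : ℝ) ≤ 2 * (δ * T) := by
    rw [hU0d]
    have := Nat.ceil_lt_add_one (by positivity : 0 ≤ δ * (T : ℝ))
    linarith
  have hU0T : U0 ≤ T := by
    rw [hU0d]
    apply Nat.ceil_le.2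
    exact mul_le_of_le_one_left hT0.le (by linarith only [hδ4])
  have hUpow : ∀ U : ℕ, U0 ≤ U → B ≤ U ^ (D + 1) := by
    intro U hU
    have h1 : (B : ℝ) ≤ (U : ℝ) ^ (D + 1) := by
      have hUr : (U0 : ℝ) ≤ U := by exact_mod_cast hU
      calc (B : ℝ) ≤ (T : ℝ) ^ D := hTr
        _ = δ ^ (D + 1) * ((1 / δ) ^ (D + 1) * (T : ℝ) ^ D) := by
            rw [one_div, inv_pow]
            field_simp
        _ ≤ δ ^ (D + 1) * (T * (T : ℝ) ^ D) := by
            apply mul_le_mul_of_nonneg_left _ (by positivity)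
            exact mul_le_mul_of_nonneg_right t2 (by positivity)
        _ = (δ * T) ^ (D + 1) := by rw [mul_pow]; ring
        _ ≤ (U : ℝ) ^ (D + 1) := pow_le_pow_left₀ (by positivity) (hU0a.trans hUr) _
    exact_mod_cast h1
  -- box 1
  have hbox1 : ∑ u ∈ Ioc 0 U0, ∑ v ∈ Ioc 0 (K * B), |E (u * v)| ≤ ε / 8 * (B * T) := by
    have h := box (by omega) hW0 hEW' (X1 := 0) (X2 := U0) (I1 := 0) (I2 := K * B) (Nat.zero_le _)
      (by rw [Nat.sub_zero]; exact hDD _ (hUpow U0 le_rfl)) (hBD _ (hU0T.trans hTB)) (Nat.zero_le _)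
      (by
        rw [Nat.sub_zero]
        apply hDD
        exact hBB.trans (Nat.pow_le_pow_left (Nat.le_mul_of_pos_left B (by omega)) _)) (hBD _ hKBle)
    refine h.trans ?_
    push_cast
    rw [sub_zero, sub_zero]
    calc C0 * ((U0 : ℝ) * (K * B)) ≤ C0 * ((2 * (δ * T)) * (K * B)) := by
          apply mul_le_mul_of_nonneg_left _ hC0pos.le
          exact mul_le_mul_of_nonneg_right hU0b (by positivity)
      _ = (C0 * K * δ * 2) * (B * T) := by ring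
      _ ≤ ε / 8 * (B * T) := by
          apply mul_le_mul_of_nonneg_right _ (by positivity)
          linarith
  -- the function
  intro U1 U2 u0 v0 Gv hU12 hU2T hG1 hG2
  rw [← hL] at hG2
  rw [← hE]
  obtain ⟨Λ, hΛ⟩ : ∃ Λ, Λ = L / B + 1 / (δ * B) := ⟨_, rfl⟩
  have hδB : 0 < δ * B := by positivity
  obtain ⟨h, hh1, hh2, hh3, hh4, hh5, hh6⟩ := cut_ex Gv (L / B) (δ * B) (K * B) (by positivity) hδB hG1 hG2
  rw [← hΛ] at hh2
  have hΛ0 : 0 ≤ Λ := by rw [hΛ]; positivity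
  have hΛK : Λ * (K * B) = K * (L + 1 / δ) := by
    rw [hΛ]
    field_simp
  -- R
  have hLA1 : 1 ≤ L ^ A := one_le_pow₀ hL1
  obtain ⟨R, hR1, hR2⟩ := R_ex hρ1 hρ2 hLA1
  obtain ⟨P, hP⟩ : ∃ P, P = ρ ^ R := ⟨_, rfl⟩
  rw [← hP] at hR1 hR2
  obtain ⟨r0, r1, r2, r3, r4, r5, r6⟩ := rngs (K := K) hL hA l1 hR1 hR2 hδ0 l3 l4 t1 hT hTK b2 bK
  have hP0 : 0 < P := by linarith
  obtain ⟨B', hB'⟩ : ∃ B', B' = ⌊(B : ℝ) * P⌋₊ := ⟨_, rfl⟩
  obtain ⟨T', hT'⟩ : ∃ T', T' = ⌊(T : ℝ) / P⌋₊ := ⟨_, rfl⟩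
  obtain ⟨N, hN⟩ : ∃ N, N = ⌊(K : ℝ) * B * P⌋₊ := ⟨_, rfl⟩
  rw [← hB'] at r1 r2 r3 r4 r5 r6
  rw [← hT'] at r3 r4
  rw [← hN] at r6
  have hBr' : (B : ℝ) ≤ B' := by exact_mod_cast r1
  have hB'0 : (0 : ℝ) < B' := by linarith
  have hL'1 : 1 ≤ (K : ℝ) * (L + 1 / δ) := by
    have h1 : 1 ≤ L + 1 / δ := by linarith only [hL1, hδinv]
    exact one_le_mul_of_one_le_of_one_le hKr h1
  -- the shift
  have hshift : ∀ U : ℕ, U0 ≤ U → U ≤ T →
      |∑ u ∈ (Icc 1 U).filter (fun u => u ≡ u0 [MOD q]), ∑ v ∈ (Icc 1 (K * B)).filter (fun v => v ≡ v0 [MOD q]),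
          h v * E (u * v) -
        ∑ u ∈ (Icc 1 ⌊(U : ℝ) / P⌋₊).filter (fun u => u ≡ u0 [MOD q]),
          ∑ v ∈ (Icc 1 N).filter (fun v => v ≡ v0 [MOD q]), h (v / P) * E (u * v)| ≤ ε / 16 * ((B : ℝ) * T) := by
    intro U hU1 hU2
    have hs := hS B bS W E hEW' hW0 hW1 R U u0 v0 (fun s => h (Real.exp s)) (K * (L + 1 / δ))
      (by rw [← hP, ← hL]; exact hR1) (hUpow U hU1) (hU2.trans hTB) hL'1
      (by
        rw [← hL]
        calc (K : ℝ) * (L + 1 / δ) ≤ (K + K / δ) * L := by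
              have h1 : (K : ℝ) / δ ≤ K / δ * L := le_mul_of_one_le_right (by positivity) hL1
              have h2 : (K : ℝ) * (L + 1 / δ) = K * L + K / δ := by ring
              rw [h2, add_mul]
              linarith
          _ ≤ L * L := mul_le_mul_of_nonneg_right l2 hL0.le
          _ = L ^ 2 := by ring)
      (fun s => (hh1 _).trans (by norm_num))
      (fun s s' => by
        have h1 := log_lip hΛ0 (by positivity : (0 : ℝ) < K * B) hh2 hh4 s s'
        rw [hΛK] at h1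
        exact h1)
      (fun s hs => by
        by_contra hne
        apply hs
        constructor
        · have h1 : δ * B < Real.exp s := by
            by_contra hcon
            exact hne (hh3 _ (not_lt.1 hcon))
          have h2 := Real.log_lt_log hδB h1
          rw [Real.log_exp, Real.log_mul hδ0.ne' hB0.ne'] at h2
          linarith
        · have h1 : Real.exp s < K * B := by
            by_contra hcon
            exact hne (hh4 _ (not_lt.1 hcon))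
          have h2 := Real.log_lt_log (Real.exp_pos s) h1
          rw [Real.log_exp] at h2
          exact h2.le)
    rw [← hP, ← hN] at hs
    have e1 : ∑ u ∈ (Icc 1 U).filter (fun u => u ≡ u0 [MOD q]), ∑ v ∈ (Icc 1 (K * B)).filter (fun v => v ≡ v0 [MOD q]),
          h (Real.exp (Real.log v)) * E (u * v) =
        ∑ u ∈ (Icc 1 U).filter (fun u => u ≡ u0 [MOD q]), ∑ v ∈ (Icc 1 (K * B)).filter (fun v => v ≡ v0 [MOD q]),
          h v * E (u * v) := by
      refine sum_congr rfl fun u _ => sum_congr rfl fun v hv => ?_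
      rw [mem_filter, mem_Icc] at hv
      rw [Real.exp_log (by exact_mod_cast hv.1.1)]
    have e2 : ∑ u ∈ (Icc 1 ⌊(U : ℝ) / P⌋₊).filter (fun u => u ≡ u0 [MOD q]),
          ∑ v ∈ (Icc 1 N).filter (fun v => v ≡ v0 [MOD q]),
            h (Real.exp (Real.log v - R * Real.log ρ)) * E (u * v) =
        ∑ u ∈ (Icc 1 ⌊(U : ℝ) / P⌋₊).filter (fun u => u ≡ u0 [MOD q]),
          ∑ v ∈ (Icc 1 N).filter (fun v => v ≡ v0 [MOD q]), h (v / P) * E (u * v) := by
      refine sum_congr rfl fun u _ => sum_congr rfl fun v hv => ?_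
      rw [mem_filter, mem_Icc] at hv
      rw [Real.exp_sub, Real.exp_log (by exact_mod_cast hv.1.1), ← Real.log_pow, ← hP, Real.exp_log hP0]
    rw [e1, e2] at hs
    refine hs.trans ?_
    apply mul_le_mul_of_nonneg_left _ (by positivity)
    exact mul_le_mul_of_nonneg_left (by exact_mod_cast hU2) hB0.le
  -- the size of `c`
  have hcBT : (c.natAbs : ℝ) ≤ ((K + 1 : ℕ) : ℝ) * ((B' : ℝ) * T') * Real.log B' ^ 2 := by
    have e1 : (2 : ℝ) ≤ B * P := by
      calc (2 : ℝ) = 2 * 1 := by ring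
        _ ≤ B * P := mul_le_mul hBr r0 zero_le_one hB0.le
    have e2 : (B : ℝ) * P / 2 ≤ B' := by rw [hB']; exact half_floor e1
    have e3 : 2 * P ≤ T := by
      refine le_trans ?_ t1
      have g1 : (2 : ℝ) ≤ 2 ^ (D + 1) := le_self_pow₀ (by norm_num) (by omega)
      have g2 : P ≤ L ^ (A * (D + 2)) := hR1.trans (pow_le_pow_right₀ hL1 (Nat.le_mul_of_pos_right A (by omega)))
      exact mul_le_mul g1 g2 hP0.le (by positivity)
    have e4 : (T : ℝ) / P / 2 ≤ T' := by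
      rw [hT']
      apply half_floor
      rw [le_div_iff₀ hP0]
      exact e3
    have e5 : (B : ℝ) * T ≤ 4 * (B' * T') := by
      calc (B : ℝ) * T = 4 * ((B * P / 2) * (T / P / 2)) := by field_simp; ring
        _ ≤ 4 * (B' * T') := by
            apply mul_le_mul_of_nonneg_left _ (by norm_num)
            exact mul_le_mul e2 e4 (by positivity) hB'0.le
    have e6 : L ≤ Real.log B' := by
      rw [hL]
      exact Real.log_le_log hB0 hBr'
    have e7 : 0 ≤ (B' : ℝ) * T' := by positivity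
    have hK3 : (0 : ℝ) ≤ K3 := Nat.cast_nonneg K3
    calc (c.natAbs : ℝ) ≤ K3 * ((B : ℝ) * T) * L := hcK
      _ ≤ K3 * (4 * (B' * T')) * L :=
          mul_le_mul_of_nonneg_right (mul_le_mul_of_nonneg_left e5 hK3) hL0.le
      _ = (4 * K3) * ((B' * T') * L) := by ring
      _ ≤ L * ((B' * T') * L) := mul_le_mul_of_nonneg_right l6 (mul_nonneg e7 hL0.le)
      _ = 1 * (B' * T') * L ^ 2 := by ring
      _ ≤ ((K + 1 : ℕ) : ℝ) * (B' * T') * Real.log B' ^ 2 := by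
          apply mul_le_mul _ (pow_le_pow_left₀ hL0.le e6 2) (by positivity) (by positivity)
          apply mul_le_mul_of_nonneg_right _ e7
          push_cast
          linarith only [hKr]
  -- the main part
  have hmain : ∀ V1 V2 : ℕ, U0 ≤ V1 → V1 ≤ V2 → V2 ≤ T →
      |∑ u ∈ (Icc 1 ⌊(V2 : ℝ) / P⌋₊).filter (fun u => u ≡ u0 [MOD q]),
          ∑ v ∈ (Icc 1 N).filter (fun v => v ≡ v0 [MOD q]), h (v / P) * E (u * v) -
        ∑ u ∈ (Icc 1 ⌊(V1 : ℝ) / P⌋₊).filter (fun u => u ≡ u0 [MOD q]),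
          ∑ v ∈ (Icc 1 N).filter (fun v => v ≡ v0 [MOD q]), h (v / P) * E (u * v)| ≤
      κ / (q : ℝ) ^ 2 * (B * ((V2 : ℝ) - V1)) + 3 * (ε / 8 * ((B : ℝ) * T)) := by
    intro V1 V2 hV0' hV12 hV2T
    have hV12r : (V1 : ℝ) ≤ V2 := by exact_mod_cast hV12
    have hV2Tr : (V2 : ℝ) ≤ T := by exact_mod_cast hV2T
    have hf12 : ⌊(V1 : ℝ) / P⌋₊ ≤ ⌊(V2 : ℝ) / P⌋₊ :=
      Nat.floor_le_floor (div_le_div_of_nonneg_right hV12r hP0.le)
    have hf2T : ⌊(V2 : ℝ) / P⌋₊ ≤ T' := by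
      rw [hT']
      exact Nat.floor_le_floor (div_le_div_of_nonneg_right hV2Tr hP0.le)
    rw [shift_eq hf12 r6 (fun v hv => hh4 _ (by
      rw [le_div_iff₀ hP0]
      rw [hN] at hv
      exact (Nat.lt_of_floor_lt hv).le))]
    -- B4P
    have h4 := hB4' B' (b4.trans r1) T' c σ hct hσ r3 r4 hcBT ⌊(V1 : ℝ) / P⌋₊ ⌊(V2 : ℝ) / P⌋₊ u0 v0 (fun v => h (v / P)) hf12 hf2T
      (fun v => hh1 _) (fun v => by
        refine le_trans (hh2 _ _) (le_trans (le_of_eq ?_) r5)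
        rw [hΛ]
        push_cast
        rw [show ((v : ℝ) + 1) / P - v / P = 1 / P by ring, abs_of_pos (by positivity : 0 < 1 / P)]
        field_simp)
    rw [← hκ4] at h4
    -- the difference
    have h5 := EPu_diff (U1 := ⌊(V1 : ℝ) / P⌋₊) (U2 := ⌊(V2 : ℝ) / P⌋₊) (N := (K + 1) * B') (u0 := u0) (v0 := v0)
      (q := q) (z := z) (KB := K * B) hσ b2 hcB r1 hP0 hh1 hh4 (by
        have h6 : (⌊(V2 : ℝ) / P⌋₊ : ℝ) ≤ V2 / P := Nat.floor_le (by positivity)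
        have h7 : (K : ℝ) * K3 ≤ B := by exact_mod_cast bKK
        calc (⌊(V2 : ℝ) / P⌋₊ : ℝ) * (K * B * P) ≤ (V2 / P) * (K * B * P) :=
              mul_le_mul_of_nonneg_right h6 (by positivity)
          _ = V2 * (K * B) := by field_simp
          _ ≤ (K3 * B) * (K * B) := mul_le_mul_of_nonneg_right (hV2Tr.trans hTKr) (by positivity)
          _ = (K * K3) * B ^ 2 := by ring
          _ ≤ B * B ^ 2 := mul_le_mul_of_nonneg_right h7 (by positivity)
          _ = (B : ℝ) ^ 3 := by ring)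
    rw [← hE, ← hL, ← hV] at h5
    have h6 : ((B' : ℝ) * (1 + Real.log (⌊(V2 : ℝ) / P⌋₊ : ℝ)) + (⌊(V2 : ℝ) / P⌋₊ : ℝ)) * (4 * L + V) ≤
        ε / 8 * (B * T) := by
      have h7 : (4 * L + V) ≤ (4 + V) * L := by
        have : V ≤ V * L := le_mul_of_one_le_right hV0.le hL1
        linarith only [this]
      have f1 : (⌊(V2 : ℝ) / P⌋₊ : ℝ) ≤ T := by
        have g1 : (⌊(V2 : ℝ) / P⌋₊ : ℝ) ≤ V2 / P := Nat.floor_le (by positivity)
        have g2 : (V2 : ℝ) / P ≤ V2 := div_le_self (Nat.cast_nonneg V2) r0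
        linarith only [g1, g2, hV2Tr]
      have hK3B : (K3 : ℝ) ≤ B := by
        have g1 : K3 ≤ K * K3 := Nat.le_mul_of_pos_left K3 (by omega)
        exact_mod_cast g1.trans bKK
      have f2 : Real.log (⌊(V2 : ℝ) / P⌋₊ : ℝ) ≤ 2 * L := by
        rcases Nat.eq_zero_or_pos ⌊(V2 : ℝ) / P⌋₊ with h0 | h0
        · rw [h0, Nat.cast_zero, Real.log_zero]
          positivity
        · have g1 : (⌊(V2 : ℝ) / P⌋₊ : ℝ) ≤ (B : ℝ) ^ 2 := by
            calc (⌊(V2 : ℝ) / P⌋₊ : ℝ) ≤ T := f1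
              _ ≤ K3 * B := hTKr
              _ ≤ B * B := mul_le_mul_of_nonneg_right hK3B hB0.le
              _ = (B : ℝ) ^ 2 := by ring
          have g2 := Real.log_le_log (by exact_mod_cast h0) g1
          rw [Real.log_pow] at g2
          rw [hL]
          exact_mod_cast g2
      have f3 : 1 + Real.log (⌊(V2 : ℝ) / P⌋₊ : ℝ) ≤ 3 * L := by linarith only [f2, hL1]
      have f4 : (B' : ℝ) * (1 + Real.log (⌊(V2 : ℝ) / P⌋₊ : ℝ)) ≤ (B * L ^ A) * (3 * L) := by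
        calc (B' : ℝ) * (1 + Real.log (⌊(V2 : ℝ) / P⌋₊ : ℝ)) ≤ B' * (3 * L) :=
              mul_le_mul_of_nonneg_left f3 hB'0.le
          _ ≤ (B * L ^ A) * (3 * L) := by
              apply mul_le_mul_of_nonneg_right _ (by positivity)
              exact r2.trans (mul_le_mul_of_nonneg_left hR1 hB0.le)
      calc ((B' : ℝ) * (1 + Real.log (⌊(V2 : ℝ) / P⌋₊ : ℝ)) + (⌊(V2 : ℝ) / P⌋₊ : ℝ)) * (4 * L + V) ≤
            ((B * L ^ A) * (3 * L) + T) * (4 * L + V) := by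
            apply mul_le_mul_of_nonneg_right (add_le_add f4 f1) (by positivity)
        _ ≤ ((B * L ^ A) * (3 * L) + T) * ((4 + V) * L) := mul_le_mul_of_nonneg_left h7 (by positivity)
        _ = (ε / 16 * B) * (48 * (4 + V) / ε * L ^ (A + 2)) + (ε / 16 * T) * (16 * (4 + V) / ε * L) := by
            rw [pow_add]
            field_simp
            ring
        _ ≤ (ε / 16 * B) * T + (ε / 16 * T) * B := by
            apply add_le_add
            · exact mul_le_mul_of_nonneg_left t4 (by positivity)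
            · exact mul_le_mul_of_nonneg_left t5 (by positivity)
        _ = ε / 8 * (B * T) := by ring
    have h7 : κ4 / (q : ℝ) ^ 2 * (B' * (((⌊(V2 : ℝ) / P⌋₊ : ℕ) : ℝ) - ((⌊(V1 : ℝ) / P⌋₊ : ℕ) : ℝ))) ≤
        κ / (q : ℝ) ^ 2 * (B * ((V2 : ℝ) - V1)) + ε / 8 * (B * T) := by
      have g1 : ((⌊(V2 : ℝ) / P⌋₊ : ℕ) : ℝ) ≤ V2 / P := Nat.floor_le (by positivity)
      have g2 : (V1 : ℝ) / P < ((⌊(V1 : ℝ) / P⌋₊ : ℕ) : ℝ) + 1 := Nat.lt_floor_add_one _
      have g3 : ((⌊(V2 : ℝ) / P⌋₊ : ℕ) : ℝ) - ((⌊(V1 : ℝ) / P⌋₊ : ℕ) : ℝ) ≤ (V2 - V1) / P + 1 := by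
        rw [sub_div]
        linarith only [g1, g2]
      have g0 : 0 ≤ ((V2 : ℝ) - V1) / P + 1 := by
        have : 0 ≤ ((V2 : ℝ) - V1) / P := div_nonneg (by linarith only [hV12r]) hP0.le
        linarith only [this]
      have g4 : (B' : ℝ) * (((⌊(V2 : ℝ) / P⌋₊ : ℕ) : ℝ) - ((⌊(V1 : ℝ) / P⌋₊ : ℕ) : ℝ)) ≤
          B * (V2 - V1) + B * P := by
        calc (B' : ℝ) * (((⌊(V2 : ℝ) / P⌋₊ : ℕ) : ℝ) - ((⌊(V1 : ℝ) / P⌋₊ : ℕ) : ℝ)) ≤
              B' * ((V2 - V1) / P + 1) := mul_le_mul_of_nonneg_left g3 hB'0.le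
          _ ≤ (B * P) * ((V2 - V1) / P + 1) := mul_le_mul_of_nonneg_right r2 g0
          _ = B * (V2 - V1) + B * P := by field_simp
      have g5 : κ4 / (q : ℝ) ^ 2 ≤ κ4 := div_le_self hκ40 (one_le_pow₀ hqr)
      have g6 : κ4 / (q : ℝ) ^ 2 ≤ κ / (q : ℝ) ^ 2 := div_le_div_of_nonneg_right hκκ (by positivity)
      have g7 : 0 ≤ (B : ℝ) * (V2 - V1) := mul_nonneg hB0.le (by linarith only [hV12r])
      calc κ4 / (q : ℝ) ^ 2 * (B' * (((⌊(V2 : ℝ) / P⌋₊ : ℕ) : ℝ) - ((⌊(V1 : ℝ) / P⌋₊ : ℕ) : ℝ))) ≤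
            κ4 / (q : ℝ) ^ 2 * (B * (V2 - V1) + B * P) := mul_le_mul_of_nonneg_left g4 (by positivity)
        _ = κ4 / (q : ℝ) ^ 2 * (B * (V2 - V1)) + κ4 / (q : ℝ) ^ 2 * (B * P) := by ring
        _ ≤ κ / (q : ℝ) ^ 2 * (B * (V2 - V1)) + κ4 * (B * L ^ A) := by
            apply add_le_add (mul_le_mul_of_nonneg_right g6 g7)
            exact mul_le_mul g5 (mul_le_mul_of_nonneg_left hR1 hB0.le) (by positivity) hκ40
        _ = κ / (q : ℝ) ^ 2 * (B * (V2 - V1)) + (ε / 8 * B) * (8 * κ4 / ε * L ^ A) := by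
            field_simp
        _ ≤ κ / (q : ℝ) ^ 2 * (B * (V2 - V1)) + (ε / 8 * B) * T := by
            have := mul_le_mul_of_nonneg_left t3 (by positivity : 0 ≤ ε / 8 * (B : ℝ))
            linarith only [this]
        _ = _ := by ring
    have h8 : ε / 8 * ((B' : ℝ) * T') ≤ ε / 8 * (B * T) := by
      apply mul_le_mul_of_nonneg_left _ (by positivity)
      have g1 : (T' : ℝ) ≤ T / P := by rw [hT']; exact Nat.floor_le (by positivity)
      calc (B' : ℝ) * T' ≤ (B * P) * (T / P) := mul_le_mul r2 g1 (Nat.cast_nonneg _) (by positivity)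
        _ = B * T := by field_simp
    rw [abs_le] at h4 h5 ⊢
    constructor <;> linarith only [h4.1, h4.2, h5.1, h5.2, h6, h7, h8]
  -- the cut boxes
  have hδ2B : 1 / δ ^ 2 ≤ B := l5.trans hLB
  have hδBsq : (B : ℝ) ≤ (δ * B) ^ 2 := by
    rw [div_le_iff₀ (by positivity)] at hδ2B
    calc (B : ℝ) = 1 * B := by ring
      _ ≤ (B * δ ^ 2) * B := mul_le_mul_of_nonneg_right hδ2B hB0.le
      _ = (δ * B) ^ 2 := by ring
  have hδB1 : 1 ≤ δ * B := by
    have h1 : 1 ≤ (δ * B) ^ 2 := by linarith only [hδBsq, hBr]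
    by_contra hcon
    have h2 : (δ * B) ^ 2 < 1 := pow_lt_one₀ hδB.le (not_le.1 hcon) (by norm_num)
    linarith only [h1, h2]
  obtain ⟨a, ha⟩ : ∃ a, a = ⌈2 * (δ * (B : ℝ))⌉₊ := ⟨_, rfl⟩
  obtain ⟨b, hb⟩ : ∃ b, b = ⌈δ * (B : ℝ)⌉₊ := ⟨_, rfl⟩
  have ha1 : 2 * (δ * B) ≤ a := by rw [ha]; exact Nat.le_ceil _
  have hb1 : δ * B ≤ b := by rw [hb]; exact Nat.le_ceil _
  have ha2 : (a : ℝ) ≤ 3 * (δ * B) := by
    rw [ha]
    have := Nat.ceil_lt_add_one (by positivity : 0 ≤ 2 * (δ * (B : ℝ)))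
    linarith only [this, hδB1]
  have hb2 : (b : ℝ) ≤ 2 * (δ * B) := by
    rw [hb]
    have := Nat.ceil_lt_add_one (by positivity : 0 ≤ δ * (B : ℝ))
    linarith only [this, hδB1]
  have hδB4 : δ * B ≤ 1 / 4 * B := mul_le_mul_of_nonneg_right hδ4 hB0.le
  have haB : a ≤ B := by
    have : (a : ℝ) ≤ B := by linarith only [ha2, hδB4, hB0]
    exact_mod_cast this
  have hbB : b ≤ B := by
    have : (b : ℝ) ≤ B := by linarith only [hb2, hδB4, hB0]
    exact_mod_cast this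
  have hBKB : B ≤ K * B := Nat.le_mul_of_pos_left B (by omega)
  have hpowB : ∀ x : ℕ, δ * B ≤ x → B ≤ x ^ (8 * (D + 1)) := by
    intro x hx
    have hx1 : 1 ≤ x := by
      have : (1 : ℝ) ≤ x := hδB1.trans hx
      exact_mod_cast this
    have h1 : (B : ℝ) ≤ (x : ℝ) ^ 2 := hδBsq.trans (pow_le_pow_left₀ hδB.le hx 2)
    have h2 : B ≤ x ^ 2 := by exact_mod_cast h1
    exact h2.trans (Nat.pow_le_pow_right hx1 (by omega))
  have hbox2 : ∑ u ∈ Ioc 0 T, ∑ v ∈ Ioc 0 a, |E (u * v)| ≤ C0 * (T * a) := by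
    have h := box (by omega) hW0 hEW' (X1 := 0) (X2 := T) (I1 := 0) (I2 := a) (Nat.zero_le _)
      (by rw [Nat.sub_zero]; exact hDD _ hTT) (hBD _ hTB) (Nat.zero_le _)
      (by rw [Nat.sub_zero]; exact hpowB a (by linarith only [ha1, hδB])) (hBD _ (haB.trans hBB))
    push_cast at h
    rw [sub_zero, sub_zero] at h
    exact h
  have hbox3 : ∑ u ∈ Ioc 0 T, ∑ v ∈ Ioc (K * B - b) (K * B), |E (u * v)| ≤ C0 * (T * b) := by
    have h := box (by omega) hW0 hEW' (X1 := 0) (X2 := T) (I1 := K * B - b) (I2 := K * B) (Nat.zero_le _)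
      (by rw [Nat.sub_zero]; exact hDD _ hTT) (hBD _ hTB) (Nat.sub_le _ _)
      (by rw [Nat.sub_sub_self (hbB.trans hBKB)]; exact hpowB b hb1) (hBD _ hKBle)
    rw [Nat.cast_sub (hbB.trans hBKB)] at h
    push_cast at h
    rw [sub_zero, sub_sub_cancel] at h
    exact h
  have hcut : ∀ V1 V2 : ℕ, V2 ≤ T →
      |∑ u ∈ (Ioc V1 V2).filter (fun u => u ≡ u0 [MOD q]), ∑ v ∈ (Icc 1 (K * B)).filter (fun v => v ≡ v0 [MOD q]),
        (Gv v - h v) * E (u * v)| ≤ ε / 8 * (B * T) := by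
    intro V1 V2 hV2T
    have h1 := cut_err (E := E) (ψ := fun v : ℕ => Gv v - h v) (S1 := (Ioc V1 V2).filter (fun u => u ≡ u0 [MOD q]))
      (T1 := Ioc 0 T) (S2 := (Icc 1 (K * B)).filter (fun v => v ≡ v0 [MOD q])) (Ioc 0 a) (Ioc (K * B - b) (K * B))
      (by
        intro x hx
        rw [mem_filter, mem_Ioc] at hx
        rw [mem_Ioc]
        omega) hh5 (by
        intro v hv hI hJ
        rw [mem_filter, mem_Icc] at hv
        rw [mem_Ioc] at hI hJ
        show Gv v - h v = 0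
        rw [hh6 v, sub_self]
        · have h2 : a < v := by omega
          have h3 : (a : ℝ) < v := by exact_mod_cast h2
          linarith only [h3, ha1]
        · have h2 : v + b ≤ K * B := by omega
          have h3 : (v : ℝ) + b ≤ K * B := by exact_mod_cast h2
          linarith only [h3, hb1])
    refine h1.trans ((add_le_add hbox2 hbox3).trans ?_)
    calc C0 * ((T : ℝ) * a) + C0 * (T * b) = C0 * (T * (a + b)) := by ring
      _ ≤ C0 * (T * (5 * (δ * B))) := by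
          apply mul_le_mul_of_nonneg_left _ hC0pos.le
          apply mul_le_mul_of_nonneg_left _ hT0.le
          linarith only [ha2, hb2]
      _ = (C0 * 1 * δ * 5) * (B * T) := by ring
      _ ≤ (C0 * K * δ * 5) * (B * T) := by
          apply mul_le_mul_of_nonneg_right _ (by positivity)
          apply mul_le_mul_of_nonneg_right _ (by norm_num)
          apply mul_le_mul_of_nonneg_right _ hδ0.le
          exact mul_le_mul_of_nonneg_left hKr hC0pos.le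
      _ ≤ ε / 8 * (B * T) := by
          apply mul_le_mul_of_nonneg_right _ (by positivity)
          linarith only [hδε]
  -- large V1
  have hcore : ∀ V1 V2 : ℕ, U0 ≤ V1 → V1 ≤ V2 → V2 ≤ T →
      |∑ u ∈ (Ioc V1 V2).filter (fun u => u ≡ u0 [MOD q]), ∑ v ∈ (Icc 1 (K * B)).filter (fun v => v ≡ v0 [MOD q]),
        Gv v * E (u * v)| ≤ κ / (q : ℝ) ^ 2 * (B * ((V2 : ℝ) - V1)) + 5 * (ε / 8 * (B * T)) := by
    intro V1 V2 hV0' hV12 hV2T
    have e1 : ∑ u ∈ (Ioc V1 V2).filter (fun u => u ≡ u0 [MOD q]),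
        ∑ v ∈ (Icc 1 (K * B)).filter (fun v => v ≡ v0 [MOD q]), Gv v * E (u * v) =
        ∑ u ∈ (Ioc V1 V2).filter (fun u => u ≡ u0 [MOD q]),
          ∑ v ∈ (Icc 1 (K * B)).filter (fun v => v ≡ v0 [MOD q]), (Gv v - h v) * E (u * v) +
        (∑ u ∈ (Icc 1 V2).filter (fun u => u ≡ u0 [MOD q]),
          ∑ v ∈ (Icc 1 (K * B)).filter (fun v => v ≡ v0 [MOD q]), h v * E (u * v) -
        ∑ u ∈ (Icc 1 V1).filter (fun u => u ≡ u0 [MOD q]),
          ∑ v ∈ (Icc 1 (K * B)).filter (fun v => v ≡ v0 [MOD q]), h v * E (u * v)) := by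
      rw [← sum_Ioc_filter (fun u => u ≡ u0 [MOD q])
        (fun u => ∑ v ∈ (Icc 1 (K * B)).filter (fun v => v ≡ v0 [MOD q]), h v * E (u * v)) hV12, ← sum_add_distrib]
      refine sum_congr rfl fun u _ => ?_
      rw [← sum_add_distrib]
      refine sum_congr rfl fun v _ => ?_
      ring
    rw [e1]
    have a1 := hcut V1 V2 hV2T
    have a2 := hshift V2 (hV0'.trans hV12) hV2T
    have a3 := hshift V1 hV0' (hV12.trans hV2T)
    have a4 := hmain V1 V2 hV0' hV12 hV2T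
    rw [abs_le] at a1 a2 a3 a4 ⊢
    constructor <;> linarith only [a1.1, a1.2, a2.1, a2.2, a3.1, a3.2, a4.1, a4.2]
  -- the end
  have hBT0 : 0 ≤ ε * ((B : ℝ) * T) := by positivity
  rcases le_total U2 U0 with hU | hU
  · have h1 := part_bd (E := E) (φ := Gv) (S1 := (Ioc U1 U2).filter (fun u => u ≡ u0 [MOD q]))
      (S2 := (Icc 1 (K * B)).filter (fun v => v ≡ v0 [MOD q])) (T1 := Ioc 0 U0) (T2 := Ioc 0 (K * B))
      (by
        intro x hx
        rw [mem_filter, mem_Ioc] at hx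
        rw [mem_Ioc]
        omega)
      (by
        intro x hx
        rw [mem_filter, mem_Icc] at hx
        rw [mem_Ioc]
        omega) hG1
    refine (h1.trans hbox1).trans ?_
    have h2 : 0 ≤ κ / (q : ℝ) ^ 2 * (B * ((U2 : ℝ) - U1)) := by
      have : (U1 : ℝ) ≤ U2 := by exact_mod_cast hU12
      exact mul_nonneg (by positivity) (mul_nonneg hB0.le (by linarith only [this]))
    linarith only [h2, hBT0]
  · obtain ⟨U3, hU3⟩ : ∃ U3, U3 = max U1 U0 := ⟨_, rfl⟩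
    have c1 : U1 ≤ U3 := by rw [hU3]; exact le_max_left _ _
    have c2 : U0 ≤ U3 := by rw [hU3]; exact le_max_right _ _
    have c3 : U3 ≤ U2 := by rw [hU3]; exact max_le hU12 hU
    have e1 : ∑ u ∈ (Ioc U1 U2).filter (fun u => u ≡ u0 [MOD q]),
        ∑ v ∈ (Icc 1 (K * B)).filter (fun v => v ≡ v0 [MOD q]), Gv v * E (u * v) =
        ∑ u ∈ (Ioc U1 U3).filter (fun u => u ≡ u0 [MOD q]),
          ∑ v ∈ (Icc 1 (K * B)).filter (fun v => v ≡ v0 [MOD q]), Gv v * E (u * v) +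
        ∑ u ∈ (Ioc U3 U2).filter (fun u => u ≡ u0 [MOD q]),
          ∑ v ∈ (Icc 1 (K * B)).filter (fun v => v ≡ v0 [MOD q]), Gv v * E (u * v) := by
      rw [sum_filter, sum_filter, sum_filter, sum_Ioc_consecutive _ c1 c3]
    rw [e1]
    have a1 := part_bd (E := E) (φ := Gv) (S1 := (Ioc U1 U3).filter (fun u => u ≡ u0 [MOD q]))
      (S2 := (Icc 1 (K * B)).filter (fun v => v ≡ v0 [MOD q])) (T1 := Ioc 0 U0) (T2 := Ioc 0 (K * B))
      (by
        intro x hx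
        rw [mem_filter, mem_Ioc, hU3] at hx
        rw [mem_Ioc]
        rcases le_max_iff.1 hx.1.2 with h1 | h1 <;> omega)
      (by
        intro x hx
        rw [mem_filter, mem_Icc] at hx
        rw [mem_Ioc]
        omega) hG1
    have a2 := a1.trans hbox1
    have a3 := hcore U3 U2 c2 c3 hU2T
    have a4 : κ / (q : ℝ) ^ 2 * (B * ((U2 : ℝ) - U3)) ≤ κ / (q : ℝ) ^ 2 * (B * ((U2 : ℝ) - U1)) := by
      have : (U1 : ℝ) ≤ U3 := by exact_mod_cast c1
      apply mul_le_mul_of_nonneg_left _ (by positivity)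
      apply mul_le_mul_of_nonneg_left _ hB0.le
      linarith only [this]
    rw [abs_le] at a2 a3 ⊢
    constructor <;> linarith only [a2.1, a2.2, a3.1, a3.2, a4, hBT0]

end

end Pool.Agent.N650.QU
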